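import Pool.Agent.Y879.PR.HLd

set_option autoImplicit false

/-!
Almost prime quadruplets `p, p + 2, p + 6, p + 8` between `n ^ 5` and `(n + 1) ^ 5`, for EVERY large `n`: their
asymptotic number, with the Hardy-Littlewood constant, their density in all intervals of length at least
`n ^ θ`, and the exponential (Gamma) laws of their gaps.
-/

namespace Pool.Agent.Results.MP_c03ca8_nt.GapLawQuadruplets

open Finset Filter
open Pool.Agent.Y879.PR Pool.Agent.W123.RP Pool.Agent.H373R2.T7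

/-- the quadruplets larger than `5` are `30 x + B i` -/
def B : Fin 4 → ℕ := ![11, 13, 17, 19]

/-- none of `30 x + 11, 30 x + 13, 30 x + 17, 30 x + 19` has a prime factor `p ≤ n ^ (1 / r)` -/
def Good (n r x : ℕ) : Prop :=
  ∀ p : ℕ, p.Prime → (p : ℝ) ≤ (n : ℝ) ^ (1 / (r : ℝ)) → ∀ i, ¬ p ∣ 30 * x + B i

/-- the density of the good numbers: the product of `1 - 4 / p` over the primes `5 < p ≤ n ^ (1 / r)` -/
noncomputable def V (n r : ℕ) : ℝ :=
  ∏ p ∈ (Icc 1 ⌊(n : ℝ) ^ (1 / (r : ℝ))⌋₊).filter Nat.Prime, (1 - ((if p ∣ 30 then 0 else 4 : ℕ) : ℝ) / p)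

open Classical in
/-- the number of the good `x` in `(u, u + Y]` with fewer than `j` good numbers in `[x - T, x)` -/
noncomputable def Near (n r j T u Y : ℕ) : ℕ :=
  ((Ioc u (u + Y)).filter (fun x => Good n r x ∧ ((Ico (x - T) x).filter (Good n r)).card < j)).card

open Classical in
/-- the number of the good `x` with `n ^ 5 < 30 x + 11` and `30 x + 19 < (n + 1) ^ 5` -/
noncomputable def Num (n r : ℕ) : ℕ :=
  ((range ((n + 1) ^ 5)).filter (fun x => n ^ 5 < 30 * x + 11 ∧ 30 * x + 19 < (n + 1) ^ 5 ∧ Good n r x)).card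

lemma tup : Tup 30 B :=
  ⟨sq30, by decide, fun p hp h => pr30 p hp h, by decide, by decide, by norm_num⟩

lemma V_eq (n r : ℕ) : V n r = Vq (Pool.Agent.W123.RU.Poly.Q (tf 30 B)) ⌊(n : ℝ) ^ (1 / (r : ℝ))⌋₊ := by
  unfold V Vq
  apply Finset.prod_congr rfl
  intro p hp
  have hpp := (mem_pz.1 hp).2
  by_cases hpM : p ∣ 30
  · rw [if_pos hpM, tup.nu_zero p hpp hpM]
  · rw [if_neg hpM, tup.nu_eq p hpp hpM]
    intro i j hij
    apply dif30 p hpp hpM
    revert i j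
    decide

lemma near_eq (n r j T u Y : ℕ) : Near n r j T u Y = TNear 30 B n r j T u Y := rfl

/-- the five numbers, in terms of `x` -/
lemma num_eq (n r : ℕ) (hn : 3 ≤ n) :
    Num n r = Near n r 1 0 ((n ^ 5 - 11) / 30) (((n + 1) ^ 5 - 20) / 30 - (n ^ 5 - 11) / 30) := by
  classical
  have h1 : 243 ≤ n ^ 5 := by
    calc 243 = 3 ^ 5 := by norm_num
      _ ≤ n ^ 5 := Nat.pow_le_pow_left hn 5
  have h2 : n ^ 5 + 11 ≤ (n + 1) ^ 5 := by
    have h3 : (n + 1) ^ 5 = n ^ 5 + (5 * n ^ 4 + 10 * n ^ 3 + 10 * n ^ 2 + 5 * n + 1) := by ring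
    rw [h3]
    omega
  obtain ⟨a, ha⟩ : ∃ a, a = n ^ 5 := ⟨_, rfl⟩
  obtain ⟨b, hb⟩ : ∃ b, b = (n + 1) ^ 5 := ⟨_, rfl⟩
  unfold Num Near
  rw [← ha, ← hb] at h2
  rw [← ha] at h1
  rw [← ha, ← hb]
  have hle : (a - 11) / 30 ≤ (b - 20) / 30 := Nat.div_le_div_right (by omega)
  rw [Nat.add_sub_cancel' hle]
  congr 1
  ext x
  simp only [Finset.mem_filter, Finset.mem_range, Finset.mem_Ioc]
  constructor
  · rintro ⟨h3, h4, h5, h6⟩
    refine ⟨⟨by omega, by omega⟩, h6, ?_⟩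
    rw [Nat.sub_zero, Finset.Ico_self, Finset.filter_empty, Finset.card_empty]
    norm_num
  · rintro ⟨⟨h3, h4⟩, h5, _⟩
    exact ⟨by omega, by omega, by omega, h5⟩

/-- **Almost prime quadruplets between `n ^ 5` and `(n + 1) ^ 5`.** Let `E` be the Hardy-Littlewood constant of
the quadruplets. For all `θ > 0`, `0 < ε ≤ 1`, `x₀` and `k₀` there is `r₀` such that for every `r ≥ r₀` and EVERY
large `n`: (1) each prime quadruplet `p, p + 2, p + 6, p + 8` with `n ^ 5 < p`, `p + 8 < (n + 1) ^ 5` is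
`30 x + B i` with a good `x`; (2) if `x` is good and `30 x + 19 < (n + 1) ^ 5`, the four numbers have at most
`5 r + 1` prime factors; (3) the number of the good quadruplets between `n ^ 5` and `(n + 1) ^ 5` is
`(1 + η) 5 n ^ 4 E (r e ^ (-γ) / log n) ^ 4` with `|η| ≤ ε`; (4) in every interval `(u, u + Y]` with
`Y ≥ n ^ θ`, for all `T` and all `j ≤ k₀` (and for all `j` if `T V ≤ x₀`), the number of the good `x` with fewer
than `j` good numbers in `[x - T, x)` is `Y V (e ^ (-TV) ∑ i < j, (TV) ^ i / i! + η)` with `|η| ≤ ε`. -/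
theorem result : ∃ E : ℝ, 0 < E ∧
    Tendsto (fun N : ℕ => (27 / 2 : ℝ) * ∏ p ∈ (Finset.range N).filter (fun p => p.Prime ∧ 3 < p),
      ((p : ℝ) ^ 3 * ((p : ℝ) - 4) / ((p : ℝ) - 1) ^ 4)) atTop (nhds E) ∧
    ∀ (θ x₀ ε : ℝ) (k₀ : ℕ), 0 < θ → 0 < ε → ε ≤ 1 →
    ∃ r₀ : ℕ, ∀ r : ℕ, r₀ ≤ r → ∃ n₀ : ℕ, ∀ n : ℕ, n₀ ≤ n →
      (∀ p : ℕ, p.Prime → (p + 2).Prime → (p + 6).Prime → (p + 8).Prime → n ^ 5 < p →
        ∃ x : ℕ, p = 30 * x + 11 ∧ Good n r x) ∧
      (∀ x : ℕ, 30 * x + 19 < (n + 1) ^ 5 → Good n r x → ∀ i,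
        (30 * x + B i).primeFactorsList.length ≤ 5 * r + 1) ∧
      |(Num n r : ℝ) * Real.log n ^ 4 -
          5 * (n : ℝ) ^ 4 * (E * (r * Real.exp (-Real.eulerMascheroniConstant)) ^ 4)| ≤
        ε * (5 * (n : ℝ) ^ 4 * (E * (r * Real.exp (-Real.eulerMascheroniConstant)) ^ 4)) ∧
      ∀ u Y j T : ℕ, (n : ℝ) ^ θ ≤ Y → (j ≤ k₀ ∨ T * V n r ≤ x₀) →
        |(Near n r j T u Y : ℝ) - Y * V n r *
            ∑ i ∈ range j, Real.exp (-(T * V n r)) * (T * V n r) ^ i / i.factorial| ≤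
          ε * (Y * V n r) := by
  obtain ⟨S, hS0, hS⟩ := HF_lim 4 (Or.inr rfl)
  refine ⟨27 / 2 * S, by positivity, ?_, ?_⟩
  · refine (hS.const_mul (27 / 2)).congr ?_
    intro N
    unfold HF
    congr 1
    apply Finset.prod_congr rfl
    intro p hp
    simp only [Finset.mem_filter] at hp
    have h3 : (3 : ℝ) < p := by exact_mod_cast hp.2.2
    unfold hf
    rw [Nat.cast_ofNat]
    have h0 : (p : ℝ) ≠ 0 := by positivity
    have h1 : (p : ℝ) - 1 ≠ 0 := by linarith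
    field_simp
  intro θ x₀ ε k₀ hθ hε hε1
  obtain ⟨r1, hr12, h1⟩ := tup_gap tup (min θ 3) (ε / 16) x₀ (max k₀ 1) (lt_min hθ (by norm_num))
    (by positivity)
  refine ⟨r1, ?_⟩
  intro r hr
  have hr2 : 2 ≤ r := hr12.trans hr
  have hrr : (2 : ℝ) ≤ r := by exact_mod_cast hr2
  obtain ⟨v, hv, hev⟩ := h1 r hr
  obtain ⟨c, hc⟩ : ∃ c, c = (r : ℝ) * Real.exp (-Real.eulerMascheroniConstant) := ⟨_, rfl⟩
  have hc0 : 0 < c := by
    rw [hc]
    have := Real.exp_pos (-Real.eulerMascheroniConstant)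
    positivity
  have hlim := PV_lim 4 (Or.inr rfl) S hS r hr2
  rw [← hc] at hlim
  have hW0 : 0 < 3 ^ 4 * (5 / (5 - ((4 : ℕ) : ℝ))) * S * c ^ 4 := by
    norm_num
    positivity
  have hev2 := (Metric.tendsto_nhds.1 hlim) (ε / 16 * (3 ^ 4 * (5 / (5 - ((4 : ℕ) : ℝ))) * S * c ^ 4))
    (by positivity)
  obtain ⟨N0, hN0⟩ := eventually_atTop.1 (hev.and hev2)
  refine ⟨max N0 (max 100 ⌈96 / ε⌉₊), ?_⟩
  intro n hn
  obtain ⟨⟨g1, g2, g3⟩, g4⟩ := hN0 n ((le_max_left _ _).trans hn)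
  have hn100 : 100 ≤ n := ((le_max_left _ _).trans (le_max_right _ _)).trans hn
  have hnε : 96 / ε ≤ n := by
    have h5 : ⌈96 / ε⌉₊ ≤ n := ((le_max_right _ _).trans (le_max_right _ _)).trans hn
    exact (Nat.le_ceil _).trans (by exact_mod_cast h5)
  have hnr : (100 : ℝ) ≤ n := by exact_mod_cast hn100
  have hn0 : (0 : ℝ) < n := by linarith
  have hpow : ((n : ℝ) ^ (1 / (r : ℝ))) ^ r = n := by
    rw [← Real.rpow_natCast, ← Real.rpow_mul (by linarith), one_div, inv_mul_cancel₀ (by linarith),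
      Real.rpow_one]
  have hzn : (n : ℝ) ^ (1 / (r : ℝ)) ≤ n := by
    calc (n : ℝ) ^ (1 / (r : ℝ)) ≤ (n : ℝ) ^ (1 : ℝ) := by
          apply Real.rpow_le_rpow_of_exponent_le (by linarith)
          rw [div_le_one (by linarith)]
          linarith
      _ = n := Real.rpow_one _
  have hVpos : 0 < V n r := by
    rw [V_eq]
    refine lt_of_lt_of_le ?_ g1
    have : 0 < Real.log n := Real.log_pos (by linarith)
    positivity
  have hlaw : ∀ u Y j T : ℕ, (n : ℝ) ^ (min θ 3) ≤ Y → (j ≤ max k₀ 1 ∨ T * V n r ≤ x₀) →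
      |(Near n r j T u Y : ℝ) - Y * V n r *
          ∑ i ∈ range j, Real.exp (-(T * V n r)) * (T * V n r) ^ i / i.factorial| ≤
        ε / 16 * (Y * V n r) := by
    intro u Y j T hY hj
    rw [V_eq] at hj ⊢
    exact g3 u Y j T hY hj
  refine ⟨?_, ?_, ?_, ?_⟩
  · intro p p0 p2 p6 p8 hp
    have hbig : n < n ^ 5 := by
      calc n = n ^ 1 := (pow_one n).symm
        _ < n ^ 5 := Nat.pow_lt_pow_right (by omega) (by norm_num)
    have hnp : n < p := by omega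
    have hnd : ∀ q m : ℕ, q.Prime → m.Prime → q < m → ¬ q ∣ m := by
      intro q m hq hm hlt hd
      have := (Nat.prime_dvd_prime_iff_eq hq hm).1 hd
      omega
    have hmod : p % 30 = 11 := by
      have h := pat_qa.cls p (by
        intro q hq hqM i
        have hq30 : q ≤ 30 := Nat.le_of_dvd (by norm_num) hqM
        fin_cases i
        · exact hnd q _ hq p0 (by omega)
        · exact hnd q _ hq p2 (by omega)
        · exact hnd q _ hq p6 (by omega)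
        · exact hnd q _ hq p8 (by omega))
      exact Finset.mem_singleton.1 h
    refine ⟨p / 30, by omega, ?_⟩
    intro q hq hqz i hd
    have hqn : q ≤ n := by
      have : (q : ℝ) ≤ n := hqz.trans hzn
      exact_mod_cast this
    have e : 30 * (p / 30) + 11 = p := by omega
    fin_cases i
    · change q ∣ 30 * (p / 30) + 11 at hd
      rw [e] at hd
      exact hnd q _ hq p0 (by omega) hd
    · change q ∣ 30 * (p / 30) + 13 at hd
      rw [show 30 * (p / 30) + 13 = p + 2 by omega] at hd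
      exact hnd q _ hq p2 (by omega) hd
    · change q ∣ 30 * (p / 30) + 17 at hd
      rw [show 30 * (p / 30) + 17 = p + 6 by omega] at hd
      exact hnd q _ hq p6 (by omega) hd
    · change q ∣ 30 * (p / 30) + 19 at hd
      rw [show 30 * (p / 30) + 19 = p + 8 by omega] at hd
      exact hnd q _ hq p8 (by omega) hd
  · intro x hx hg i
    have hBi : 11 ≤ B i ∧ B i ≤ 19 := by fin_cases i <;> simp [B]
    refine Pool.Agent.Y879.GL.few_of_rough ((n : ℝ) ^ (1 / (r : ℝ))) (by linarith) _ (5 * r + 1)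
      (by omega) ?_ ?_
    · rw [pow_succ, mul_comm 5 r, pow_mul, hpow]
      have h4 : ((30 * x + B i : ℕ) : ℝ) ≤ ((n + 1) ^ 5 : ℕ) := by exact_mod_cast (by omega)
      push_cast at h4 ⊢
      have h5 : ((n : ℝ) + 1) ^ 5 ≤ (2 * n) ^ 5 := by
        apply pow_le_pow_left₀ (by linarith)
        linarith
      have h6 : (n : ℝ) ^ 5 * 40 ≤ (n : ℝ) ^ 5 * (n : ℝ) ^ (1 / (r : ℝ)) :=
        mul_le_mul_of_nonneg_left g2.le (by positivity)
      have h7 : (2 * (n : ℝ)) ^ 5 = (n : ℝ) ^ 5 * 32 := by ring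
      have h8 : 0 < (n : ℝ) ^ 5 := by positivity
      linarith
    · intro q hq hqd
      by_contra hcon
      rw [not_lt] at hcon
      exact hg q hq hcon i hqd
  · -- the number
    rw [← hc]
    have hnum := num_eq n r (by omega)
    obtain ⟨u, hu⟩ : ∃ u, u = (n ^ 5 - 11) / 30 := ⟨_, rfl⟩
    obtain ⟨w, hw⟩ : ∃ w, w = ((n + 1) ^ 5 - 20) / 30 := ⟨_, rfl⟩
    rw [← hu, ← hw] at hnum
    have hexp : (n + 1) ^ 5 = n ^ 5 + (5 * n ^ 4 + 10 * n ^ 3 + 10 * n ^ 2 + 5 * n + 1) := by ring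
    obtain ⟨Y, hY⟩ : ∃ Y, Y = w - u := ⟨_, rfl⟩
    rw [← hY] at hnum
    have hn5 : 11 ≤ n ^ 5 := by
      calc 11 ≤ 100 ^ 5 := by norm_num
        _ ≤ n ^ 5 := Nat.pow_le_pow_left hn100 5
    have hY1 : 30 * Y ≤ 5 * n ^ 4 + 10 * n ^ 3 + 10 * n ^ 2 + 5 * n + 61 := by
      rw [hexp] at hw
      omega
    have hY2 : 5 * n ^ 4 + 10 * n ^ 3 + 10 * n ^ 2 + 5 * n + 1 ≤ 30 * Y + 60 := by
      rw [hexp] at hw
      omega
    have hY1r : 30 * (Y : ℝ) ≤ 5 * (n : ℝ) ^ 4 + 10 * (n : ℝ) ^ 3 + 10 * (n : ℝ) ^ 2 + 5 * n + 61 := by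
      exact_mod_cast hY1
    have hY2r : 5 * (n : ℝ) ^ 4 + 10 * (n : ℝ) ^ 3 + 10 * (n : ℝ) ^ 2 + 5 * n + 1 ≤ 30 * (Y : ℝ) + 60 := by
      exact_mod_cast hY2
    have q1 : (n : ℝ) * 100 ≤ (n : ℝ) ^ 2 := by
      rw [sq]
      exact mul_le_mul_of_nonneg_left hnr hn0.le
    have q2 : (n : ℝ) ^ 2 * 100 ≤ (n : ℝ) ^ 3 := by
      rw [pow_succ (n : ℝ) 2]
      exact mul_le_mul_of_nonneg_left hnr (by positivity)
    have q3 : (n : ℝ) ^ 3 * (96 / ε) ≤ (n : ℝ) ^ 4 := by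
      rw [pow_succ (n : ℝ) 3]
      exact mul_le_mul_of_nonneg_left hnε (by positivity)
    have q3' : 96 * (n : ℝ) ^ 3 ≤ ε * (n : ℝ) ^ 4 := by
      have : (n : ℝ) ^ 3 * (96 / ε) * ε ≤ (n : ℝ) ^ 4 * ε := mul_le_mul_of_nonneg_right q3 hε.le
      have e : (n : ℝ) ^ 3 * (96 / ε) * ε = 96 * (n : ℝ) ^ 3 := by field_simp
      linarith
    have hn3 : 0 < (n : ℝ) ^ 3 := by positivity
    have hn4 : 0 < (n : ℝ) ^ 4 := by positivity
    have hYd : |(Y : ℝ) - (n : ℝ) ^ 4 / 6| ≤ ε / 4 * ((n : ℝ) ^ 4 / 6) := by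
      rw [abs_le]
      constructor <;> linarith
    have hYθ : (n : ℝ) ^ (min θ 3) ≤ Y := by
      have h5 : (n : ℝ) ^ (min θ 3) ≤ (n : ℝ) ^ (3 : ℝ) :=
        Real.rpow_le_rpow_of_exponent_le (by linarith) (min_le_right _ _)
      have h6 : (n : ℝ) ^ (3 : ℝ) = (n : ℝ) ^ 3 := by
        rw [← Real.rpow_natCast]
        norm_num
      have h7 : (n : ℝ) ^ 3 * 100 ≤ (n : ℝ) ^ 4 := by
        rw [pow_succ (n : ℝ) 3]
        exact mul_le_mul_of_nonneg_left hnr (by positivity)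
      have h8 : (n : ℝ) ^ 3 ≤ Y := by
        have h9 : 0 < (n : ℝ) ^ 2 := by positivity
        linarith
      exact h5.trans (h6.le.trans h8)
    have h5 := hlaw u Y 1 0 hYθ (Or.inl (le_max_right _ _))
    rw [← hnum] at h5
    simp only [Nat.cast_zero, zero_mul, neg_zero, Real.exp_zero, Finset.sum_range_one, pow_zero, mul_one,
      Nat.factorial_zero, Nat.cast_one, div_one] at h5
    rw [Real.dist_eq] at g4
    have hVP : V n r = PV 30 4 n r := rfl
    rw [← hVP] at g4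
    have hlog : 0 < Real.log n := Real.log_pos (by linarith)
    obtain ⟨G, hG⟩ : ∃ G : ℝ, G = Num n r := ⟨_, rfl⟩
    rw [← hG] at h5 ⊢
    have s1 : |G * Real.log n ^ 4 - Y * (V n r * Real.log n ^ 4)| ≤
        ε / 4 / 4 * (Y * (V n r * Real.log n ^ 4)) := by
      have e1 : G * Real.log n ^ 4 - Y * (V n r * Real.log n ^ 4) = (G - Y * V n r) * Real.log n ^ 4 := by ring
      have e2 : ε / 4 / 4 * (Y * (V n r * Real.log n ^ 4)) = (ε / 16 * (Y * V n r)) * Real.log n ^ 4 := by ring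
      rw [e1, e2, abs_mul, abs_of_pos (by positivity : 0 < Real.log n ^ 4)]
      exact mul_le_mul_of_nonneg_right h5 (by positivity)
    have s2 := two_step _ (Y : ℝ) _ (3 ^ 4 * (5 / (5 - ((4 : ℕ) : ℝ))) * S * c ^ 4) (ε / 4) (by positivity)
      (by linarith) (Nat.cast_nonneg _) hW0.le s1 (g4.le.trans (le_of_eq (by ring)))
    rw [mul_comm (Y : ℝ)] at s2
    have s3 := two_step _ _ (Y : ℝ) ((n : ℝ) ^ 4 / 6) ε hε hε1 hW0.le (by positivity) s2 hYd
    have e3 : 3 ^ 4 * (5 / (5 - ((4 : ℕ) : ℝ))) * S * c ^ 4 * ((n : ℝ) ^ 4 / 6) =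
        5 * (n : ℝ) ^ 4 * (27 / 2 * S * c ^ 4) := by
      norm_num
      ring
    rw [e3] at s3
    exact s3
  · intro u Y j T hY hj
    have hY' : (n : ℝ) ^ (min θ 3) ≤ Y :=
      (Real.rpow_le_rpow_of_exponent_le (by linarith) (min_le_left _ _)).trans hY
    refine (hlaw u Y j T hY' ?_).trans ?_
    · rcases hj with h5 | h5
      · exact Or.inl (h5.trans (le_max_left _ _))
      · exact Or.inr h5
    · exact mul_le_mul_of_nonneg_right (by linarith) (by positivity)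

end Pool.Agent.Results.MP_c03ca8_nt.GapLawQuadruplets
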