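import Pool.Agent.Y677.RSZ.FinPow
import Pool.Agent.TH977.PW.Prog

set_option autoImplicit false

/-!
# Narrow arithmetic progressions of prime quadruplets and almost prime quadruplets between fifth powers

Let `R r` be the set of the `p` for which all prime factors of `p`, `p + 2`, `p + 6`, `p + 8` are larger
than `p ^ (1 / r)`; it contains the first members `p` of all prime quadruplets. Let `A` be an ARBITRARY
subset of `R r`, for example the set of the first members of all prime quadruplets. For all large `n` all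
but `ε n ^ 4 / log ^ 4 n` of the elements `p` of `A` with `n ^ 5 < p < p + 8 < (n + 1) ^ 5` are terms of
`l`-term arithmetic progressions of such elements with difference at most `(log n) ^ B`; and for every
`l` there are such progressions of almost prime quadruplets, the number `r` of prime factors being
independent of `l`.
-/

namespace Pool.Agent.Results.MP_c03ca8_nt.NarrowProgressions

open Finset Filter
open Pool.Agent.TH977.PW (N)
open Pool.Agent.Y677.RSZ (InProg Outside)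

/-- the shape of the quadruplets -/
def H : Finset ℕ := {0, 2, 6, 8}

/-- All prime factors of all `p + h`, `h ∈ H`, are larger than `p ^ (1 / r)`. -/
def R (r : ℕ) : Set ℕ :=
  {p | ∀ h ∈ H, ∀ q : ℕ, q.Prime → q ∣ p + h → (p : ℝ) ^ (1 / (r : ℝ)) < (q : ℝ)}

/-- The `p` of `R r` for which all `p + h`, `h ∈ H`, have at most `r` prime factors. -/
def P (r : ℕ) : Set ℕ :=
  {p | p ∈ R r ∧ ∀ h ∈ H, (p + h).primeFactorsList.length ≤ r}

/-- no local obstruction -/
lemma adm (p : ℕ) (hp : p.Prime) : ∃ m : ℕ, ∀ h ∈ H, ¬ p ∣ m + h := by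
  unfold H
  rcases lt_or_ge p 30 with h30 | h30
  · refine ⟨101, fun h hh hd => ?_⟩
    simp only [mem_insert, mem_singleton] at hh
    have := (Nat.prime_dvd_prime_iff_eq hp
      (by rcases hh with rfl | rfl | rfl | rfl <;> norm_num)).1 hd
    omega
  · refine ⟨5, fun h hh hd => ?_⟩
    simp only [mem_insert, mem_singleton] at hh
    have := Nat.le_of_dvd (by omega) hd
    omega

/-- **Narrow progressions of prime and almost prime quadruplets between consecutive fifth powers.** -/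
theorem result : ∃ r₀ : ℕ, 2 ≤ r₀ ∧ ∀ r : ℕ, r₀ ≤ r →
    (∀ p : ℕ, (∀ h ∈ H, (p + h).Prime) → p ∈ R r) ∧
    (∃ κ : ℝ, 0 < κ ∧ ∀ᶠ n : ℕ in atTop, κ * (n : ℝ) ^ 4 / Real.log n ^ 4 ≤
      N (P r) (n ^ 5) ((n + 1) ^ 5 - 9)) ∧
    (∀ l : ℕ, 2 ≤ l → ∀ ε : ℝ, 0 < ε → ∃ B : ℕ, ∀ᶠ n : ℕ in atTop, ∀ A : Set ℕ, A ⊆ R r →
      (N (Outside A l (Real.log n ^ B) (n ^ 5) ((n + 1) ^ 5 - 9)) (n ^ 5) ((n + 1) ^ 5 - 9) : ℝ) ≤
        ε * (n : ℝ) ^ 4 / Real.log n ^ 4) ∧
    ∀ l : ℕ, ∃ B : ℕ, ∀ᶠ n : ℕ in atTop, ∃ u d : ℕ, 1 ≤ d ∧ (d : ℝ) ≤ Real.log n ^ B ∧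
      ∀ i < l, u + i * d ∈ P r ∧ n ^ 5 < u + i * d ∧ u + i * d ≤ (n + 1) ^ 5 - 9 := by
  obtain ⟨r0, hr0, h⟩ := Pool.Agent.Y677.RSZ.narrow_prog H ⟨0, by simp [H]⟩ 1 0 one_pos
    (fun h _ => Nat.coprime_one_right _) adm R P 4 (by rfl)
    (fun r m _ hm => hm)
    (fun r _ => Eventually.of_forall (fun m _ h1 h2 => ⟨h1, h2⟩))
    (((5 - 1 : ℕ) : ℝ) / (5 : ℕ)) (by norm_num) (by norm_num)
  refine ⟨r0, hr0, fun r hr => ⟨?_, Pool.Agent.Y677.RSZ.between 5 9 4 (by norm_num)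
    (fun _ hm => hm.1) (h r hr).1 (h r hr).2⟩⟩
  intro n hn h hh q hq hdv
  have hn2 : 2 ≤ n := by simpa using (hn 0 (by simp [H])).two_le
  rw [(Nat.prime_dvd_prime_iff_eq hq (hn h hh)).1 hdv]
  exact Pool.Agent.TH977.PW.rpow_lt_of_le r n (n + h) (hr0.trans hr) hn2 (by omega)

end Pool.Agent.Results.MP_c03ca8_nt.NarrowProgressions
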