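import Pool.Agent.Y816.PD.UniS

set_option autoImplicit false

/-!
# Quadruplets of almost primes between consecutive fifth powers with restricted digits

For every large `n` the quadruplets `p, p + 2, p + 6, p + 8` with `p = n ^ 5 + j` between `n ^ 5` and
`(n + 1) ^ 5` are considered, where the `i`-th digit of `j` in base `b` belongs to an arbitrary set `A i` for all
`i < K`, `K = log_b (5 n ^ 4)` (integer part), the product of the `|A i|` being at least `exp (- c K) b ^ K`.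
-/

namespace Pool.Agent.Results.MP_c03ca8_nt.RestrictedDigits

open Finset Filter
open Pool.Agent.Y816.PD (ND NA)

/-- The shape of the quadruplets. -/
def H : Finset ℕ := {0, 2, 6, 8}

/-- All prime factors of the four numbers `n ^ 5 + j + h` are larger than `j ^ (1 / r)`. -/
def R (n r : ℕ) : Set ℕ := {j | ∀ h ∈ H, ∀ p : ℕ, p.Prime → p ∣ n ^ 5 + j + h → j < p ^ r}

/-- `n ^ 5 < n ^ 5 + j < n ^ 5 + j + 8 < (n + 1) ^ 5`, all prime factors of the four numbers `n ^ 5 + j + h` are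
larger than `y ^ (1 / r)`, and each of them has at most `r` prime factors. -/
def P (n r y : ℕ) : Set ℕ := {j | (0 < j ∧ n ^ 5 + j + 8 < (n + 1) ^ 5) ∧
  ∀ h ∈ H, (∀ p : ℕ, p.Prime → p ∣ n ^ 5 + j + h → y < p ^ r) ∧
    (n ^ 5 + j + h).primeFactorsList.length ≤ r}

/-- **Quadruplets of almost primes between consecutive fifth powers with restricted digits.** -/
theorem result :
    ∃ c : ℝ, 0 < c ∧ ∃ r₀ : ℕ, 2 ≤ r₀ ∧ ∀ r : ℕ, r₀ ≤ r →
      (∀ n j : ℕ, (∀ h ∈ H, (n ^ 5 + j + h).Prime) → j ∈ R n r) ∧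
      ∀ b : ℕ, 2 ≤ b → ∃ κ C : ℝ, 0 < κ ∧ 0 < C ∧ ∀ᶠ n : ℕ in atTop, ∀ K : ℕ, K = Nat.log b (5 * n ^ 4) →
        ∀ A : ℕ → Finset ℕ, (∀ i < K, A i ⊆ range b) → (b : ℝ) ^ K ≤ Real.exp (c * K) * NA K A →
        ((∃ d ∈ A 0, ∀ h ∈ H, (n ^ 5 + d + h).Coprime b) → (∃ d ∈ A (K - 1), d ≠ 0) →
          κ * NA K A / (K : ℝ) ^ 4 ≤ ND b K A (P n r (b ^ K))) ∧
        (ND b K A (R n r) : ℝ) ≤ C * NA K A / (K : ℝ) ^ 4 := by
  obtain ⟨c, hc, r₀, hr₀, h⟩ := Pool.Agent.Y816.PD.uni_shift H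
    (Pool.Agent.Y816.PD.adm2 H 5 101 (by decide) (by
      intro h hh
      simp only [H, mem_insert, mem_singleton] at hh
      rcases hh with rfl | rfl | rfl | rfl <;> norm_num) (by decide)) 4 (by decide) (by norm_num) 3
  refine ⟨c, hc, r₀, hr₀, fun r hr => ⟨fun n j h1 h hh p hp hd => ?_, fun b hb => ?_⟩⟩
  · have h2r : 2 ≤ r := hr₀.trans hr
    have h3 : j ≤ p := by
      rw [(Nat.prime_dvd_prime_iff_eq hp (h1 h hh)).1 hd]
      omega
    exact lt_of_le_of_lt h3 (lt_self_pow₀ hp.one_lt (by omega))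
  · obtain ⟨κ, C, hκ, hC, h1⟩ := h r hr b hb
    refine ⟨κ, C, hκ, hC, ?_⟩
    obtain ⟨K0, hK0⟩ := eventually_atTop.1 h1
    filter_upwards [eventually_ge_atTop (b ^ (K0 + 2))] with n hn K hK A hA hprod
    have hn1 : 1 ≤ n := le_trans (Nat.one_le_pow _ _ (by omega)) hn
    have hn4 : n ≤ n ^ 4 := Nat.le_self_pow (by norm_num) n
    have hn2 : n ≤ 5 * n ^ 4 := by omega
    have hKK : K0 + 2 ≤ K := by
      rw [hK]
      exact Nat.le_log_of_pow_le (by omega) (hn.trans hn2)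
    have hb1 : b ^ K ≤ 5 * n ^ 4 := by
      rw [hK]
      exact Nat.pow_log_le_self b (by positivity)
    have hb2 : 5 * n ^ 4 < b ^ (K + 1) := by
      rw [hK]
      exact Nat.lt_pow_succ_log_self (by omega) _
    have hN : n ^ 5 ≤ b ^ (3 * K) := by
      calc n ^ 5 = n ^ 4 * n := by ring
        _ ≤ (5 * n ^ 4) * (5 * n ^ 4) := Nat.mul_le_mul (by omega) hn2
        _ ≤ b ^ (K + 1) * b ^ (K + 1) := Nat.mul_le_mul hb2.le hb2.le
        _ = b ^ (2 * K + 2) := by rw [← pow_add]; congr 1; ring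
        _ ≤ b ^ (3 * K) := Nat.pow_le_pow_right (by omega) (by omega)
    obtain ⟨h2, h3⟩ := hK0 K (by omega) (n ^ 5) hN A hA hprod
    refine ⟨fun hd htop => ?_, h3⟩
    refine (h2 hd htop).trans ?_
    have h4 := Pool.Agent.Y816.PD.ND_mono' (b := b) (K := K) (A := A)
      (S := {j | b ^ (K - 1) ≤ j ∧ ∀ h ∈ H, (∀ p : ℕ, p.Prime → p ∣ n ^ 5 + j + h →
        b ^ K < p ^ r) ∧ (n ^ 5 + j + h).primeFactorsList.length ≤ r}) (T := P n r (b ^ K))
      (fun j hjK hj => by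
        obtain ⟨hj1, hj2⟩ := hj
        have h7 : 0 < b ^ (K - 1) := by positivity
        refine ⟨⟨by omega, ?_⟩, hj2⟩
        have h8 : (n + 1) ^ 5 = n ^ 5 + 5 * n ^ 4 + 10 * n ^ 3 + 10 * n ^ 2 + 5 * n + 1 := by ring
        have h9 : 1 ≤ n ^ 3 := Nat.one_le_pow _ _ hn1
        omega)
    exact_mod_cast h4

end Pool.Agent.Results.MP_c03ca8_nt.RestrictedDigits
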